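import Pool.Agent.Q234.SY

/-!
# Almost all shifts: `p_{kn} + h_1, …, p_{kn} + h_r` simultaneously prime, the right order of magnitude

Q1 and Q2 ask, for every `n`, for a small `k` such that `p_{kn} + 2` is prime. Here the shift `2` is replaced by
almost all shifts, or vectors of shifts. Let `n` be any positive integer. For all vectors `(h_1, …, h_r)` of
positive integers up to `B x` without a local obstruction, except for an arbitrarily small proportion
`κ x ^ r`, there are at least `c x / (log x) ^ (r + 1)` integers `k` with `p_{kn} ≤ x` (which is the expected order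
of magnitude) such that all the numbers `p_{kn} + h_j` are primes. For `r = 1` the vectors without local
obstruction are the even numbers `h`.

The proof uses the theorem of the starting files on sets of primes which are dense in most residue classes
(`Pool.Agent.TH882.KS.sys_most`), and that the primes with indices in a syndetic set are such a set
(`Pool.Agent.TH882.HY.IS_most`, from the Maynard-Tao theorem).
-/

set_option autoImplicit false

open Finset Filter Topology

namespace Pool.Agent.Results.MP_be93de_nt.AlmostAllShifts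

/-- The `m`-th prime: `p 1 = 2`, `p 2 = 3`. -/
noncomputable def p (m : ℕ) : ℕ := Nat.nth Nat.Prime (m - 1)

/-- No local obstruction: for every prime `l` there is an integer `x` such that `l` divides neither `x` nor any
`x + h_j`. -/
def Admissible {r : ℕ} (h : Fin r → ℕ) : Prop :=
  ∀ l : ℕ, l.Prime → ∃ x : ℤ, ¬ (l : ℤ) ∣ x ∧ ∀ j, ¬ (l : ℤ) ∣ x + h j

/-- The `k ≥ 1` with `p_{kn} ≤ x` for which all the numbers `p_{kn} + h_j` are prime. -/
def good {r : ℕ} (n : ℕ) (h : Fin r → ℕ) (x : ℕ) : Set ℕ :=
  {k : ℕ | 1 ≤ k ∧ p (k * n) ≤ x ∧ ∀ j, (p (k * n) + h j).Prime}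

/-- The admissible vectors `h` of integers `1 ≤ h_j ≤ B x` with fewer than `c x / (log x) ^ (r + 1)` such `k`. -/
def exceptions (r n B : ℕ) (c : ℝ) (x : ℕ) : Set (Fin r → ℕ) :=
  {h : Fin r → ℕ | (∀ j, 1 ≤ h j ∧ h j ≤ B * x) ∧ Admissible h ∧
    ((good n h x).ncard : ℝ) < c * (x / Real.log x ^ (r + 1))}

theorem good_finite {r : ℕ} (n : ℕ) (hn : 1 ≤ n) (h : Fin r → ℕ) (x : ℕ) : (good n h x).Finite := by
  apply (Finset.finite_toSet (Finset.range (x + 1))).subset
  rintro j ⟨h1, h2, -⟩
  rw [Finset.mem_coe, Finset.mem_range]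
  unfold p at h2
  have e1 := Nat.add_two_le_nth_prime (j * n - 1)
  have e2 : j * 1 ≤ j * n := Nat.mul_le_mul_left j hn
  omega

/-- **Almost all shifts.** -/
theorem result (r n B : ℕ) (hn : 1 ≤ n) (κ : ℝ) (hκ : 0 < κ) : ∃ c : ℝ, 0 < c ∧
    ∀ᶠ x : ℕ in atTop, ((exceptions r n B c x).ncard : ℝ) ≤ κ * (x : ℝ) ^ r := by
  classical
  obtain ⟨c, hc, x₀, h⟩ := Pool.Agent.Q234.SY.synd n hn (Pool.Agent.Q234.SY.mul n)
    (Pool.Agent.Q234.SY.syn_mul n hn) (fun _ : Fin r => (Polynomial.X : Polynomial ℤ))
    (fun _ => by rw [Polynomial.natDegree_X]) (fun _ => by rw [Polynomial.leadingCoeff_X]; norm_num) B κ hκ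
  refine ⟨c, hc, ?_⟩
  filter_upwards [eventually_ge_atTop x₀] with x hx
  have h1 := h x hx
  simp only [Polynomial.natDegree_X, pow_one, prod_const, card_univ, Fintype.card_fin] at h1
  refine le_trans ?_ h1
  rw [← Set.ncard_coe_finset]
  apply Nat.cast_le.2
  apply Set.ncard_le_ncard
  · rintro k ⟨hk1, hk2, hk3⟩
    rw [mem_coe, mem_filter, Fintype.mem_piFinset]
    refine ⟨fun j => mem_Icc.2 (hk1 j), ?_, ?_⟩
    · intro l hl
      obtain ⟨y, hy1, hy2⟩ := hk2 l hl
      refine ⟨y, hy1, fun j => ?_⟩
      rw [Polynomial.eval_X, one_mul, add_comm]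
      exact hy2 j
    · refine lt_of_le_of_lt ?_ hk3
      apply Nat.cast_le.2
      rw [← Set.ncard_coe_finset]
      refine Set.ncard_le_ncard_of_injOn (fun m => m / n) ?_ ?_ (good_finite n hn k x)
      · intro m hm
        unfold Pool.Agent.Q234.SY.goodI at hm
        rw [mem_coe, mem_filter, mem_Icc] at hm
        obtain ⟨⟨hm1, hm2⟩, hm3, hm4, hm5⟩ := hm
        have hmn : m / n * n = m := Nat.div_mul_cancel hm3
        refine ⟨?_, ?_, ?_⟩
        · rcases Nat.eq_zero_or_pos (m / n) with h0 | h0
          · rw [h0, zero_mul] at hmn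
            omega
          · exact h0
        · show p (m / n * n) ≤ x
          rw [hmn]
          exact hm4
        · intro j
          show (p (m / n * n) + k j).Prime
          rw [hmn]
          have e1 := hm5 j
          rw [Polynomial.eval_X] at e1
          have e2 : ((k j : ℤ) + (Pool.Agent.Q234.SY.pn m : ℤ)).toNat = p m + k j := by
            unfold p Pool.Agent.Q234.SY.pn
            omega
          rwa [e2] at e1
      · intro m hm m' hm' heq
        unfold Pool.Agent.Q234.SY.goodI at hm hm'
        rw [mem_coe, mem_filter] at hm hm'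
        have e1 : m / n * n = m := Nat.div_mul_cancel hm.2.1
        have e2 : m' / n * n = m' := Nat.div_mul_cancel hm'.2.1
        simp only at heq
        rw [← e1, ← e2, heq]
  · exact Finset.finite_toSet _

end Pool.Agent.Results.MP_be93de_nt.AlmostAllShifts
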