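import Pool.Agent.Q234.Sh

/-!
# All but boundedly many shifts: `p_{kn} + h` is prime or a product of two primes, up to a small factor

Q1 and Q2 ask, for every `n`, for a small `k` such that `p_{kn} + 2` is prime. Here the shift `2` is replaced by
all positive integers `h ≤ 2 X` with boundedly many exceptions, and the prime by a number `m s` with `m ≤ X ^ ε`
and `s` a prime or a product of two primes larger than `X ^ (1 / 7)`.

Part 1: let `n ≥ 1` be arbitrary and let `S` be ANY set of `k ≥ 1` with `p_{kn} ≤ X` and at least `δ X / log X`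
elements. For all `h ≤ 2 X` but at most `K = K(δ, ε)` a positive proportion of the elements `k` of `S` is such that
`p_{kn} + h` has this form. Part 2: for every `n` and all large `X`, for all `h ≤ 2 X` but at most `K = K(n, ε)` there
are at least `κ X / log X` such `k ≥ 1` with `p_{kn} ≤ X`.

This is an application of the theorem `Pool.Agent.W23.DC.dense_almost_prime` of the starting files.
-/

set_option autoImplicit false

open Finset

namespace Pool.Agent.Results.MP_be93de_nt.BoundedlyManyShifts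

/-- The `m`-th prime: `p 1 = 2`, `p 2 = 3`. -/
noncomputable def p (m : ℕ) : ℕ := Nat.nth Nat.Prime (m - 1)

/-- `a = m s`, where `m ≤ X ^ ε` and `s > 1` has at most two prime factors (counted with multiplicity), all of them
larger than `X ^ (1 / 7)`. -/
def Almost (ε : ℝ) (X a : ℕ) : Prop :=
  ∃ m s : ℕ, a = m * s ∧ (m : ℝ) ≤ (X : ℝ) ^ ε ∧ 1 < s ∧
    s.primeFactorsList.length ≤ 2 ∧ ∀ l ∈ s.primeFactors, (X : ℝ) ^ (1 / 7 : ℝ) < l

open Classical in
/-- The `k` in `S` such that `p_{kn} + h` has this property. -/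
noncomputable def good (ε : ℝ) (n X : ℕ) (S : Finset ℕ) (h : ℕ) : Finset ℕ :=
  S.filter (fun k => Almost ε X (p (k * n) + h))

/-- All `k ≥ 1` with `p_{kn} ≤ X`. -/
noncomputable def all (n X : ℕ) : Finset ℕ := (Icc 1 X).filter (fun k => p (k * n) ≤ X)

theorem count_lower : ∃ X₀ : ℕ, ∀ X : ℕ, X₀ ≤ X → (X : ℝ) / (2 * Real.log X) ≤ (Nat.primeCounting X : ℝ) := by
  have h3 : Filter.Tendsto (fun X : ℕ => Real.log (X : ℝ)) Filter.atTop Filter.atTop :=
    Real.tendsto_log_atTop.comp tendsto_natCast_atTop_atTop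
  have h1 := (isLittleO_log_rpow_atTop (r := (1 : ℝ)) one_pos).bound (show (0 : ℝ) < 1 / 100 by norm_num)
  have h2 := (tendsto_natCast_atTop_atTop (R := ℝ)).eventually h1
  obtain ⟨X₀, h⟩ := Filter.eventually_atTop.1 (h2.and (h3.eventually_ge_atTop 1))
  refine ⟨max X₀ 100, fun X hX => ?_⟩
  obtain ⟨e1, e2⟩ := h X ((le_max_left _ _).trans hX)
  have hX100 : 100 ≤ X := (le_max_right _ _).trans hX
  have hXr : (100 : ℝ) ≤ X := by exact_mod_cast hX100
  have hX0 : (0 : ℝ) < X := by linarith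
  rw [Real.norm_eq_abs, Real.norm_eq_abs, Real.rpow_one, abs_of_nonneg hX0.le, abs_of_nonneg (by linarith)] at e1
  refine le_trans ?_ (Chebyshev.pi_ge X)
  have hl0 : 0 < Real.log X := by linarith
  have h4 : Real.log ((X : ℝ) + 1) ≤ Real.log X + 1 := by
    have h5 : Real.log ((X : ℝ) + 1) ≤ Real.log (X * Real.exp 1) := by
      apply Real.log_le_log (by linarith)
      have := Real.add_one_le_exp 1
      nlinarith
    rw [Real.log_mul hX0.ne' (Real.exp_pos 1).ne', Real.log_exp] at h5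
    exact h5
  have h6 := Real.log_two_gt_d9
  rw [div_le_div_iff₀ (by positivity) hl0]
  have h7 : (X : ℝ) ≤ 2 * (X * Real.log 2 - Real.log (X + 1)) := by nlinarith
  nlinarith [mul_le_mul_of_nonneg_right h7 hl0.le]

theorem all_card (n : ℕ) (hn : 1 ≤ n) (X : ℕ) : Nat.primeCounting X / n ≤ (all n X).card := by
  have h1 : (Icc 1 (Nat.primeCounting X / n)).card ≤ (all n X).card := by
    apply card_le_card
    intro k hk
    rw [mem_Icc] at hk
    have h2 : k * n ≤ Nat.primeCounting X := by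
      calc k * n ≤ Nat.primeCounting X / n * n := Nat.mul_le_mul_right _ hk.2
        _ ≤ _ := Nat.div_mul_le_self _ _
    have h3 : 1 * 1 ≤ k * n := Nat.mul_le_mul hk.1 hn
    have h4 : k * 1 ≤ k * n := Nat.mul_le_mul_left k hn
    have h5 : p (k * n) < X + 1 := by
      unfold p
      apply Nat.nth_lt_of_lt_count
      have : Nat.count Nat.Prime (X + 1) = Nat.primeCounting X := rfl
      omega
    have h6 := Nat.add_two_le_nth_prime (k * n - 1)
    have h7 : p (k * n) = Nat.nth Nat.Prime (k * n - 1) := rfl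
    unfold all
    rw [mem_filter, mem_Icc]
    omega
  rwa [Nat.card_Icc, Nat.add_sub_cancel] at h1

open Classical in
theorem part1 (δ ε : ℝ) (hδ : 0 < δ) (hε : 0 < ε) : ∃ (κ : ℝ) (K : ℕ), 0 < κ ∧ ∀ n : ℕ, 1 ≤ n → ∀ X : ℕ, 2 ≤ X →
    ∀ S : Finset ℕ, (∀ k ∈ S, 1 ≤ k ∧ p (k * n) ≤ X) → δ * X / Real.log X ≤ S.card →
      ((Icc 1 (2 * X)).filter (fun h => ((good ε n X S h).card : ℝ) < κ * S.card)).card ≤ K := by
  obtain ⟨κ, K, hκ, h⟩ := Pool.Agent.Q234.Sh.dense δ ε hδ hε
  refine ⟨κ, K, hκ, fun n hn X hX S hS hSd => ?_⟩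
  have h1 := h (fun k => p (k * n)) X hX S (fun k hk => ⟨Nat.prime_nth_prime _, (hS k hk).2⟩) (by
    intro a ha b hb hab
    have e1 : 1 * 1 ≤ a * n := Nat.mul_le_mul (hS a ha).1 hn
    have e2 : 1 * 1 ≤ b * n := Nat.mul_le_mul (hS b hb).1 hn
    have e3 := Nat.nth_injective Nat.infinite_setOfPred_prime hab
    have e4 : a * n = b * n := by omega
    exact Nat.eq_of_mul_eq_mul_right hn e4) hSd
  refine le_trans ?_ h1
  apply card_le_card
  intro c hc
  rw [mem_filter, mem_Icc] at hc ⊢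
  exact ⟨⟨Nat.zero_le _, hc.1.2⟩, hc.2⟩

open Classical in
/-- **All but boundedly many shifts.** -/
theorem result : (∀ δ ε : ℝ, 0 < δ → 0 < ε → ∃ (κ : ℝ) (K : ℕ), 0 < κ ∧ ∀ n : ℕ, 1 ≤ n → ∀ X : ℕ, 2 ≤ X →
      ∀ S : Finset ℕ, (∀ k ∈ S, 1 ≤ k ∧ p (k * n) ≤ X) → δ * X / Real.log X ≤ S.card →
        ((Icc 1 (2 * X)).filter (fun h => ((good ε n X S h).card : ℝ) < κ * S.card)).card ≤ K) ∧
    (∀ (n : ℕ) (ε : ℝ), 1 ≤ n → 0 < ε → ∃ (κ : ℝ) (K : ℕ), 0 < κ ∧ ∃ X₀ : ℕ, ∀ X : ℕ, X₀ ≤ X →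
      ((Icc 1 (2 * X)).filter (fun h =>
        ((good ε n X (all n X) h).card : ℝ) < κ * (X / Real.log X))).card ≤ K) := by
  refine ⟨fun δ ε hδ hε => part1 δ ε hδ hε, ?_⟩
  intro n ε hn hε
  have hn0 : (0 : ℝ) < n := by exact_mod_cast hn
  obtain ⟨κ, K, hκ, h⟩ := part1 (1 / (4 * n)) ε (by positivity) hε
  obtain ⟨X₀, hX₀⟩ := count_lower
  have h3 : Filter.Tendsto (fun X : ℕ => (X : ℝ) / Real.log (X : ℝ)) Filter.atTop Filter.atTop := by
    have h4 : Filter.Tendsto (fun x : ℝ => x / Real.log x) Filter.atTop Filter.atTop := by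
      have h5 := (isLittleO_log_rpow_atTop (r := (1 : ℝ)) one_pos).tendsto_div_nhds_zero
      have h6 : Filter.Tendsto (fun x : ℝ => Real.log x / x) Filter.atTop (nhdsWithin 0 (Set.Ioi 0)) := by
        apply tendsto_nhdsWithin_of_tendsto_nhds_of_eventually_within
        · simpa using h5
        · filter_upwards [Filter.eventually_gt_atTop (1 : ℝ)] with x hx
          exact div_pos (Real.log_pos hx) (by linarith)
      have h7 := h6.inv_tendsto_nhdsGT_zero
      refine h7.congr (fun x => ?_)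
      simp [inv_div]
    exact h4.comp tendsto_natCast_atTop_atTop
  obtain ⟨X₁, hX₁⟩ := Filter.eventually_atTop.1 (h3.eventually_ge_atTop (4 * (n : ℝ)))
  refine ⟨κ * (1 / (4 * n)), K, by positivity, max (max X₀ X₁) 2, fun X hX => ?_⟩
  have b0 : X₀ ≤ X := le_trans (le_trans (le_max_left _ _) (le_max_left _ _)) hX
  have b1 : X₁ ≤ X := le_trans (le_trans (le_max_right _ _) (le_max_left _ _)) hX
  have b2 : 2 ≤ X := le_trans (le_max_right _ _) hX
  have hl0 : 0 < Real.log X := Real.log_pos (by exact_mod_cast (by omega : 1 < X))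
  have hcard : 1 / (4 * (n : ℝ)) * X / Real.log X ≤ ((all n X).card : ℝ) := by
    have e1 := all_card n hn X
    have e2 : (Nat.primeCounting X : ℝ) / n - 1 ≤ ((Nat.primeCounting X / n : ℕ) : ℝ) := by
      have e3 := Nat.lt_div_mul_add (a := Nat.primeCounting X) (b := n) hn
      have e4 : (Nat.primeCounting X : ℝ) ≤ ((Nat.primeCounting X / n : ℕ) : ℝ) * n + n := by
        exact_mod_cast e3.le
      rw [sub_le_iff_le_add, div_le_iff₀ hn0]
      linarith
    have e5 : ((Nat.primeCounting X / n : ℕ) : ℝ) ≤ ((all n X).card : ℝ) := by exact_mod_cast e1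
    have e6 := hX₀ X b0
    have e7 := hX₁ X b1
    have e8 : (X : ℝ) / (2 * Real.log X) / n ≤ (Nat.primeCounting X : ℝ) / n := by gcongr
    have e9 : 1 / (4 * (n : ℝ)) * X / Real.log X = (X : ℝ) / (2 * Real.log X) / n - 1 / (4 * n) * (X / Real.log X) := by
      field_simp
      ring
    have e10 : 1 ≤ 1 / (4 * (n : ℝ)) * (X / Real.log X) := by
      rw [one_div, inv_mul_eq_div, le_div_iff₀ (by positivity), one_mul]
      exact e7
    linarith
  have h5 := h n hn X b2 (all n X) (by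
    intro k hk
    unfold all at hk
    rw [mem_filter, mem_Icc] at hk
    exact ⟨hk.1.1, hk.2⟩) hcard
  refine le_trans (card_le_card ?_) h5
  intro c hc
  rw [mem_filter] at hc ⊢
  refine ⟨hc.1, lt_of_lt_of_le hc.2 ?_⟩
  calc κ * (1 / (4 * (n : ℝ))) * (X / Real.log X) = κ * (1 / (4 * (n : ℝ)) * X / Real.log X) := by ring
    _ ≤ _ := mul_le_mul_of_nonneg_left hcard hκ.le

end Pool.Agent.Results.MP_be93de_nt.BoundedlyManyShifts
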