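import Pool.Agent.Q234.StM

/-!
# Simultaneously prime numbers `p_{a n} + h` for small multipliers `a` and dense sets of `n`

Q1 asks, for every `n > 6`, for a `k`, `1 ≤ k ≤ n`, such that `p_{kn} + 2` (such that `p_{k ^ 2 n} + 2`) is
prime. The shift `2` is replaced here by almost all multiples `h` of a small primorial `M`, the product
of the primes up to `y`, where `y` is of the order of magnitude `log log x`, so that `M` is a power of
`log x`.

Let `a_1, …, a_r` be at most `log ^ B x` (for instance `r = 2 s` and the `k_i` and `k_i ^ 2`), and let `S` be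
ANY set of at least `x / log ^ A x` integers `1 ≤ n ≤ x`. For almost all vectors `(h_1, …, h_r)` all the
numbers `p_{a_i n} + h_i` are primes for the expected number of the elements `n` of `S` (and `a_i ≤ n` for all
but `log ^ B x` of the `n`). As `a n = n a`, the theorem can also be read with the roles exchanged: for all
`n_1, …, n_r ≤ log ^ B x` and ANY large set `S` of `k`, all the numbers `p_{k n_i} + h_i` are primes for the
expected number of the elements `k` of `S`.
-/

set_option autoImplicit false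

open Finset

namespace Pool.Agent.Results.MP_be93de_nt.DenseSets

/-- The `m`-th prime: `p 1 = 2`, `p 2 = 3`. -/
noncomputable def p (m : ℕ) : ℕ := Nat.nth Nat.Prime (m - 1)

/-- The product of `1 - 1/q` over the primes `q ≤ y`. -/
noncomputable def V (y : ℕ) : ℝ := ∏ q ∈ (Icc 1 y).filter Nat.Prime, (1 - 1 / (q : ℝ))

open Classical in
/-- The elements `n` of `S` for which all the numbers `p_{a_i n} + h_i` are prime. -/
noncomputable def good {r : ℕ} (S : Finset ℕ) (a h : Fin r → ℕ) : Finset ℕ :=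
  S.filter (fun n => ∀ i, (p (a i * n) + h i).Prime)

/-- **Dense sets of `n`, and all small multipliers simultaneously.** -/
theorem result : ∀ (r A B C : ℕ) (ε : ℝ), 0 < ε → ε ≤ 1 → ∃ K₀ : ℕ, ∀ K₁ : ℕ, ∃ x₀ : ℕ, ∀ x : ℕ, x₀ ≤ x →
    ∀ y : ℕ, K₀ * Real.log (Real.log x) ≤ y → y ≤ K₁ * Real.log (Real.log x) →
    ∀ g₀ G : Fin r → ℕ, (∀ i, primorial y * (g₀ i + G i) ≤ x) →
      (∀ i, (x : ℝ) ≤ primorial y * G i * Real.log x ^ C) →
    ∀ a : Fin r → ℕ, (∀ i, 1 ≤ a i ∧ (a i : ℝ) ≤ Real.log x ^ B) →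
    ∀ S : Finset ℕ, S ⊆ Icc 1 x → (x : ℝ) ≤ S.card * Real.log x ^ A →
      (((Fintype.piFinset fun i => Icc 1 (G i)).filter (fun g =>
        ((good S a (fun i => primorial y * (g₀ i + g i))).card : ℝ) <
        (1 - ε) * (S.card / (V y * Real.log x) ^ r))).card : ℝ) ≤ ε * ∏ i, (G i : ℝ) := by
  classical
  intro r A B C ε hε hε1
  obtain ⟨K₀, hK₀⟩ := Pool.Agent.Q234.StR.mult 1 (Or.inl rfl) r A B C ε hε hε1
  refine ⟨K₀, fun K₁ => ?_⟩
  obtain ⟨x₀, hx₀⟩ := hK₀ K₁
  refine ⟨x₀, fun x hx y hy1 hy2 g₀ G hW1 hW2 a ha S hS hSA => ?_⟩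
  have h1 := hx₀ x hx y hy1 hy2 S hS hSA a (fun i => (ha i).1) (fun i => (ha i).2) g₀ G
      (fun i => by rw [pow_one]; exact hW1 i) (fun i => by rw [pow_one]; exact hW2 i)
  simp only [pow_one, Nat.cast_one, one_mul] at h1
  exact h1

end Pool.Agent.Results.MP_be93de_nt.DenseSets
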