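import Pool.Agent.TH685.TI.TwinB
import Pool.Agent.Q55.IdxMult

/-!
# The least `k` for which `p_{kn} + 2` or `p_{k²n} + 2` is prime

For almost all `n` every `k ≥ 1` for which `p_{k^e n} + 2` is prime (or has at most `r` prime factors, all larger than
`p_{k^e n} ^ (1 / r)`) satisfies `k ^ e > (log n)^(1 - η)`.
-/

set_option autoImplicit false

open Finset Filter

namespace Pool.Agent.Results.MP_be93de_nt.LeastMultiplier

/-- the `j`-th prime, `p 1 = 2` -/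
noncomputable def p (j : ℕ) : ℕ := Nat.nth Nat.Prime (j - 1)

/-- `q + 2` has at most `r` prime factors (counted with multiplicity), all larger than `q ^ (1 / r)` -/
def Almost (r q : ℕ) : Prop :=
  (q + 2).primeFactorsList.length ≤ r ∧ ∀ l : ℕ, l.Prime → l ∣ q + 2 → q < l ^ r

theorem almost_of_prime {r q : ℕ} (hr : 1 ≤ r) (h : (q + 2).Prime) : Almost r q := by
  refine ⟨?_, fun l hl hd => ?_⟩
  · rw [Nat.primeFactorsList_prime h]
    simpa using hr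
  · rw [(Nat.prime_dvd_prime_iff_eq hl h).1 hd]
    calc q < q + 2 := by omega
      _ = (q + 2) ^ 1 := (pow_one _).symm
      _ ≤ (q + 2) ^ r := Nat.pow_le_pow_right (by omega) hr

theorem thin (r : ℕ) (hr : 1 ≤ r) : Pool.Agent.TH685.Gen.Thin (Almost r) := by
  classical
  obtain ⟨C, hC, X₀, hX₀, h⟩ := Pool.Agent.TH685.TI.at_interval r hr
  refine ⟨C + X₀ ^ 2, by positivity, fun x hx => ?_⟩
  have hx2 : (2 : ℝ) ≤ x := by exact_mod_cast hx
  have hl : 0 < Real.log x := Real.log_pos (by linarith)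
  have hq : 0 < (x : ℝ) / Real.log x ^ 2 := by positivity
  rcases le_or_gt X₀ x with hxX | hxX
  · have h1 := h x hxX 0
    have hsub : {q : ℕ | q ≤ x ∧ q.Prime ∧ Almost r q} ⊆
        (((Ioc 0 (0 + x)).filter (Pool.Agent.TH685.TI.At r) : Finset ℕ) : Set ℕ) := by
      rintro q ⟨hq1, hq2, hq3⟩
      exact mem_coe.2 (mem_filter.2 ⟨mem_Ioc.2 ⟨hq2.pos, by omega⟩, hq2, Or.inl hq3⟩)
    have h2 := Set.ncard_le_ncard hsub (finite_toSet _)
    rw [Set.ncard_coe_finset] at h2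
    calc (Set.ncard {q : ℕ | q ≤ x ∧ q.Prime ∧ Almost r q} : ℝ) ≤ C * (x / Real.log x ^ 2) :=
          le_trans (by exact_mod_cast h2) h1
      _ ≤ (C + X₀ ^ 2) * (x / Real.log x ^ 2) := by
        apply mul_le_mul_of_nonneg_right _ hq.le
        nlinarith [sq_nonneg (X₀ : ℝ)]
  · have hsub : {q : ℕ | q ≤ x ∧ q.Prime ∧ Almost r q} ⊆ ((Icc 1 x : Finset ℕ) : Set ℕ) := by
      rintro q ⟨hq1, hq2, -⟩
      exact mem_coe.2 (mem_Icc.2 ⟨hq2.pos, hq1⟩)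
    have h2 := Set.ncard_le_ncard hsub (finite_toSet _)
    rw [Set.ncard_coe_finset, Nat.card_Icc, Nat.add_sub_cancel] at h2
    have h3 : Real.log x ≤ x := by
      have := Real.log_le_sub_one_of_pos (show (0 : ℝ) < x by linarith)
      linarith
    have h4 : (x : ℝ) ≤ X₀ := by exact_mod_cast hxX.le
    calc (Set.ncard {q : ℕ | q ≤ x ∧ q.Prime ∧ Almost r q} : ℝ) ≤ x := by exact_mod_cast h2
      _ ≤ (X₀ : ℝ) ^ 2 * (x / Real.log x ^ 2) := by
        rw [mul_div_assoc', le_div_iff₀ (by positivity)]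
        have h5 : Real.log x ^ 2 ≤ (X₀ : ℝ) ^ 2 := by
          apply pow_le_pow_left₀ hl.le (h3.trans h4)
        nlinarith
      _ ≤ (C + X₀ ^ 2) * (x / Real.log x ^ 2) := by
        apply mul_le_mul_of_nonneg_right _ hq.le
        linarith

/-- **Theorem.** Let `r ≥ 1`, `e ≥ 1`, `0 < η < 1`, `ε > 0`. For all large `X` and all `n ≤ X` with at most `ε X`
exceptions: every `k ≥ 1` for which `p_{k^e n} + 2` has at most `r` prime factors, all larger than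
`p_{k^e n} ^ (1 / r)`, satisfies `k ^ e > (log X) ^ (1 - η)`. This includes every `k ≥ 1` for which `p_{k^e n} + 2` is
prime. -/
theorem result :
    (∀ r : ℕ, 1 ≤ r → ∀ e : ℕ, 1 ≤ e → ∀ η : ℝ, 0 < η → η < 1 → ∀ ε : ℝ, 0 < ε → ∀ᶠ X : ℕ in atTop,
      (Set.ncard {n : ℕ | 1 ≤ n ∧ n ≤ X ∧
        ¬ ∀ k : ℕ, 1 ≤ k → Almost r (p (k ^ e * n)) → Real.log X ^ (1 - η) < (k : ℝ) ^ e} : ℝ) ≤ ε * X) ∧
    ∀ r : ℕ, 1 ≤ r → ∀ j : ℕ, (p j + 2).Prime → Almost r (p j) := by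
  refine ⟨fun r hr e he η hη hη1 ε hε => ?_, fun r hr j hj => almost_of_prime hr hj⟩
  have hfew : Pool.Agent.TH685.Gen.Few (fun j => Almost r (p j)) := Pool.Agent.TH685.Gen.few_of_thin _ (thin r hr)
  filter_upwards [Pool.Agent.Q55.IdxMult.main _ hfew e he η hη hη1 ε hε] with X hX
  refine le_trans ?_ hX
  have hsub : {n : ℕ | 1 ≤ n ∧ n ≤ X ∧
      ¬ ∀ k : ℕ, 1 ≤ k → Almost r (p (k ^ e * n)) → Real.log X ^ (1 - η) < (k : ℝ) ^ e} ⊆
      {n : ℕ | 1 ≤ n ∧ n ≤ X ∧ ∃ k : ℕ, 1 ≤ k ∧ (k : ℝ) ^ e ≤ Real.log X ^ (1 - η) ∧ Almost r (p (k ^ e * n))} := by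
    rintro n ⟨h1, h2, h3⟩
    push Not at h3
    obtain ⟨k, hk, hR, hle⟩ := h3
    exact ⟨h1, h2, k, hk, hle, hR⟩
  have hfin : {n : ℕ | 1 ≤ n ∧ n ≤ X ∧ ∃ k : ℕ, 1 ≤ k ∧ (k : ℝ) ^ e ≤ Real.log X ^ (1 - η) ∧
      Almost r (p (k ^ e * n))}.Finite :=
    (Set.finite_Iic X).subset (fun n hn => hn.2.1)
  exact_mod_cast Set.ncard_le_ncard hsub hfin

end Pool.Agent.Results.MP_be93de_nt.LeastMultiplier
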